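import Pool.Agent.Helper42.BES.Pieces

/-!
# The Brown-Erdős-Sós conjecture for unions of few Maltsev pieces

A *Maltsev piece* is a set of triples which is a relation between three disjoint sets of vertices,
closed under the componentwise application of some operations `p` with `p a b b = a` and
`p a a b = b` on these three sets. For instance, the cosets of subgroups of a product of three groups
are Maltsev pieces (`maltsev_coset`), and so are matchings (`maltsev_matching`).

Let `H` be a 3-graph on `n` vertices in which any `s` edges span more than `s + 3` vertices, i.e.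
without the configurations of the conjecture for `k = s + 3`. If `H` is a union of `L` Maltsev
pieces and `s = 18` or `s ≥ 22`, then `|H| ≤ ((s - 1)² / 6) L n`.

So for `k = 21` and `k ≥ 25` the conjecture holds for unions of `o(n)` Maltsev pieces. (Every such
`H` is a union of `3 s n` Maltsev pieces, see `union_of_maltsev` in
`Pool.Agent.Helper42.BES.Pieces`. For the other `k ≥ 6` the linear bound fails for `L = 1`; the
example is the grid in the hand-in `ModularPieces`.)

## Idea

Let `θ₁`, `θ₂`, `θ₃` be the kernels of the coordinates of a piece. By the argument of the hand-in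
`ModularPieces`, the classes of `δ = (θ₁ ∨ θ₂) ∧ (θ₂ ∨ θ₃) ∧ (θ₁ ∨ θ₃)` have less than `s` elements.
If the three vertices of an edge `e` have degree more than `(s - 1)²/6`, then there are many edges
`a`, `b`, `c`, in different classes of `δ`, with the same first (second, third) vertex as `e`. The edges
`p (p a e b) e c` are pairwise different, and form a three-dimensional grid. But in a grid there are
`s` points on at most `s + 3` lines if `s = 18` or `s ≥ 22`.
-/

set_option autoImplicit false

namespace Pool.Agent.Results.MP_c82047_co.MaltsevPieces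

open Finset Pool.Agent.R181.Maj Pool.Agent.Helper42.BES

theorem upper (s L : ℕ) (hs : s = 18 ∨ 22 ≤ s) (V : Type) [Fintype V] (H : Set (Finset V))
    (F : Fin L → Set (Finset V)) (hF : ∀ i, MaltsevPiece (F i)) (hH : H = ⋃ i, F i)
    (hsp : SpanMore H s (s + 3)) :
    (H.ncard : ℝ) ≤ (s - 1) ^ 2 / 6 * L * Fintype.card V := by
  classical
  have h1 : ∀ i, ((F i).ncard : ℝ) ≤ (s - 1) ^ 2 / 6 * Fintype.card V := by
    intro i
    have h2 := maltsev_bound hs hsp (hF i) (by rw [hH]; exact Set.subset_iUnion F i)
    have h3 : (((s - 1) / 6 : ℕ) : ℝ) ≤ ((s : ℝ) - 1) / 6 := by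
      refine Nat.cast_div_le.trans (le_of_eq ?_)
      rw [Nat.cast_sub (by omega)]
      norm_num
    have h4 : (((s - 1 : ℕ)) : ℝ) = (s : ℝ) - 1 := by
      rw [Nat.cast_sub (by omega), Nat.cast_one]
    have h5 : (0 : ℝ) ≤ (s : ℝ) - 1 := by rw [← h4]; positivity
    calc ((F i).ncard : ℝ) ≤ (((s - 1) * ((s - 1) / 6) * Fintype.card V : ℕ) : ℝ) := by
          exact_mod_cast h2
      _ = ((s : ℝ) - 1) * (((s - 1) / 6 : ℕ) : ℝ) * Fintype.card V := by
          rw [Nat.cast_mul, Nat.cast_mul, h4]
      _ ≤ ((s : ℝ) - 1) * (((s : ℝ) - 1) / 6) * Fintype.card V := by gcongr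
      _ = _ := by ring
  refine (union_le hH h1).trans (le_of_eq ?_)
  ring

/-- **Theorem.** Let `H` be a 3-graph on `n` vertices in which any `s` edges span more than `s + 3`
vertices, where `s = 18` or `s ≥ 22`. If `H` is a union of `L` Maltsev pieces, then
`|H| ≤ ((s - 1)²/6) L n`. -/
theorem result (s L : ℕ) (hs : s = 18 ∨ 22 ≤ s) (V : Type) [Fintype V] (H : Set (Finset V))
    (F : Fin L → Set (Finset V)) (hF : ∀ i, MaltsevPiece (F i)) (hH : H = ⋃ i, F i)
    (hsp : SpanMore H s (s + 3)) :
    (H.ncard : ℝ) ≤ (s - 1) ^ 2 / 6 * L * Fintype.card V :=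
  upper s L hs V H F hF hH hsp

end Pool.Agent.Results.MP_c82047_co.MaltsevPieces
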