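import Pool.Agent.Helper42.BES.Pieces
import Pool.Agent.Helper42.BES.Slices

/-!
# The Brown-Erdős-Sós conjecture for unions of congruence modular pieces

A *modular piece* is a set of triples which is a relation between three disjoint sets of vertices,
closed under the componentwise application of some Gumm operations on these three sets. (By a theorem
of Gumm, these are the operations whose existence characterises congruence modularity. Majority
operations, Maltsev operations, lattices, groups, quasigroups, modules are special cases, see
`modular_of_majority`, `MaltsevPiece.modular` and `maltsev_coset`.)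

Let `H` be a 3-graph on `n` vertices which is a union of `L` modular pieces. If any `s` edges span
more than `s + 3` vertices (these are the 3-graphs of the conjecture for `k = s + 3`), then
`|H| ≤ (s - 1) L (n/3)^{3/2}`. So the conjecture holds for unions of `o(n^{1/2})` modular pieces. The
exponent is optimal for `3 ≤ s ≤ 21`, `s ≠ 18`, already for `L = 1` (theorem `optimal` below).

## Idea

The kernels `θ₁`, `θ₂`, `θ₃` of the coordinates of a piece generate a modular lattice. Let `δ` be the
upper and `μ` the lower median of the three. Between `μ` and `δ` there is the diamond with the atoms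
`ρᵢ = (θᵢ ∧ δ) ∨ μ`. A commutator argument shows that these permute, and even `ρᵢ = (θᵢ ∧ δ) ∘ μ`, so
that every `δ`-class is a blow-up of a Latin square, whose cells (the classes of `μ`) are the tight
components. Such a configuration can be exhausted edge by edge without ever having more than three
vertices more than edges: a part closed under adding edges with two vertices in the part has at
most two vertices more than edges. So the classes of `δ` have less than `s` elements; the inequality of
Loomis and Whitney bounds their number. For the optimality, we compute the minimal number of lines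
through `s` points of the three-dimensional grid for `s ≤ 21`.
-/

set_option autoImplicit false

namespace Pool.Agent.Results.MP_c82047_co.ModularPieces

open Finset Pool.Agent.R181.Maj Pool.Agent.Helper42.BES

theorem upper (s L : ℕ) (hs : 1 ≤ s) (V : Type) [Fintype V] (H : Set (Finset V))
    (F : Fin L → Set (Finset V)) (hF : ∀ i, ModularPiece (F i)) (hH : H = ⋃ i, F i)
    (hsp : SpanMore H s (s + 3)) :
    (H.ncard : ℝ) ≤ (s - 1) * L * ((Fintype.card V : ℝ) / 3) ^ (3 / 2 : ℝ) := by
  classical
  have hs1 : (0 : ℝ) ≤ (s : ℝ) - 1 := by
    have : (1 : ℝ) ≤ s := by exact_mod_cast hs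
    linarith
  have h1 : ∀ i, ((F i).ncard : ℝ) ≤ (s - 1) * ((Fintype.card V : ℝ) / 3) ^ (3 / 2 : ℝ) := by
    intro i
    have h2 := piece_bound hs hsp (hF i) (by rw [hH]; exact Set.subset_iUnion F i)
    refine le_of_pow_le_pow_left₀ (n := 2) (by norm_num) (by positivity) ?_
    have h3 : (((Fintype.card V : ℝ) / 3) ^ (3 / 2 : ℝ)) ^ 2 = ((Fintype.card V : ℝ) / 3) ^ 3 := by
      rw [← Real.rpow_natCast, ← Real.rpow_mul (by positivity)]
      norm_num
    rw [mul_pow, h3]
    have h4 : ((27 * (F i).ncard ^ 2 : ℕ) : ℝ) ≤
        (((s - 1) ^ 2 * Fintype.card V ^ 3 : ℕ) : ℝ) := by exact_mod_cast h2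
    rw [Nat.cast_mul, Nat.cast_mul, Nat.cast_pow, Nat.cast_pow, Nat.cast_pow,
      Nat.cast_sub hs] at h4
    norm_num at h4
    rw [div_pow]
    linarith
  refine (union_le hH h1).trans (le_of_eq ?_)
  ring

/-- The exponent is optimal: for all `q` there is a modular piece `H` with `n = 3 q²` vertices
and `q³ = (n/3)^{3/2}` edges, such that any `s` edges of `H` span more than `s + 3` vertices for all
`3 ≤ s ≤ 21`, `s ≠ 18`. -/
theorem optimal (q : ℕ) : ∃ (V : Type) (_ : Fintype V) (H : Set (Finset V)),
    Fintype.card V = 3 * q ^ 2 ∧ ModularPiece H ∧ H.ncard = q ^ 3 ∧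
      ∀ s, 3 ≤ s → s ≤ 21 → s ≠ 18 → SpanMore H s (s + 3) := by
  refine ⟨GridV 2 q, inferInstance, grid 2 q, card_gridV 2 q, (grid_maltsev q).modular,
    ncard_grid 2 q (by norm_num), ?_⟩
  intro s h3 h21 h18
  exact grid_span_of 2 q s (s + 3) (by norm_num) fun P hP =>
    lines_lower q s h3 (by omega) h18 P hP

/-- **Theorem.** Let `s ≥ 1`, and let `H` be a 3-graph on `n` vertices which is the union of `L`
modular pieces. If any `s` edges of `H` span more than `s + 3` vertices, then
`|H| ≤ (s - 1) L (n/3)^{3/2}`. -/
theorem result (s L : ℕ) (hs : 1 ≤ s) (V : Type) [Fintype V] (H : Set (Finset V))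
    (F : Fin L → Set (Finset V)) (hF : ∀ i, ModularPiece (F i)) (hH : H = ⋃ i, F i)
    (hsp : SpanMore H s (s + 3)) :
    (H.ncard : ℝ) ≤ (s - 1) * L * ((Fintype.card V : ℝ) / 3) ^ (3 / 2 : ℝ) :=
  upper s L hs V H F hF hH hsp

end Pool.Agent.Results.MP_c82047_co.ModularPieces
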