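import Pool.Agent.Helper46.BES.OneMain

/-!
# Seven vertices spanning four edges in tripartite triple systems with one tame shadow

Let `H` be a tripartite triple system on `n` vertices, with the parts `0`, `1`, `2`, in which every
`7` vertices span fewer than `4` edges, and let `R` be any relation between the parts `0` and `1`
such that every subset of the part `1` shattered by `R` has at most `d` elements. Then `H` has at
most `144 (n ^ (2 - 1 / (2 d + 2)) + d ^ (1 / 2) n ^ (3 / 2) + n ^ (4 / 3) D ^ (1 / 3))` edges,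
where `D` is the number of the pairs in which `R` differs from the shadow of `H` between the parts
`0` and `1`. Nothing is assumed about the other two shadows.

The proof rests on the following fact: if `a` and `b` are distinct vertices of the part `0`, then
they have at most `3 δ + 1` common neighbours in the part `2`, where `δ` is the size of the
symmetric difference of their neighbourhoods in the part `1` (`card_inter_le`).
-/

set_option autoImplicit false

namespace Pool.Agent.Results.MP_c82047_co.OneTameShadow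

theorem result (d : ℕ) (V : Type) [Fintype V] [DecidableEq V] (H : Finset (Finset V))
    (c : V → Fin 3) (hH : ∀ e ∈ H, ∃ x y z, c x = 0 ∧ c y = 1 ∧ c z = 2 ∧ e = {x, y, z})
    (hF : ∀ K : Finset V, K.card = 7 → (H.filter (fun e => e ⊆ K)).card < 4)
    (R : V → V → Prop)
    (hd : ∀ S : Finset V, (∀ w ∈ S, c w = 1) →
      (∀ T ⊆ S, ∃ v, c v = 0 ∧ ∀ w ∈ S, R v w ↔ w ∈ T) → S.card ≤ d) :
    (H.card : ℝ) ≤ 144 * ((Fintype.card V : ℝ) ^ (2 - 1 / (2 * (d : ℝ) + 2)) +
      Real.sqrt d * (Fintype.card V : ℝ) ^ ((3 : ℝ) / 2) +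
      (Fintype.card V : ℝ) ^ ((4 : ℝ) / 3) *
        (({p : V × V | c p.1 = 0 ∧ c p.2 = 1 ∧
          ¬ (R p.1 p.2 ↔ ∃ e ∈ H, p.1 ∈ e ∧ p.2 ∈ e)}.ncard : ℕ) : ℝ) ^ ((1 : ℝ) / 3)) := by
  have h1 := Pool.Agent.Helper46.BES.one_main d V H c hH hF R hd
  have h2 : {p : V × V | c p.1 = 0 ∧ c p.2 = 1 ∧
      ¬ (R p.1 p.2 ↔ ∃ e ∈ H, p.1 ∈ e ∧ p.2 ∈ e)}.ncard =
      (Pool.Agent.Helper46.BES.diffs1 H c R).card := by
    rw [← Set.ncard_coe_finset]
    congr 1
    ext p
    simp [Pool.Agent.Helper46.BES.diffs1]
  rw [h2]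
  exact h1

end Pool.Agent.Results.MP_c82047_co.OneTameShadow
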