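import Pool.Agent.Helper40W.BX.Main

/-!
# Brown-Erdos-Sos for two-coloured Steiner triple systems: exact sizes `k ≤ 9`

Method. Suppose that no `k` edges of one colour span at most `k + 3` vertices. Call an ordered pair
`(L, M)` of meeting edges of one colour a cherry, and let `f (L, M)` be the number of edges of the same
colour meeting both outside their common vertex (at most 4 pairs). The classes of cherries which are
connected through triangles of edges live on sets `A` of fewer than `k` edges, with `|A| + 3` vertices,
and on such a class the sum of `2 - f` is not negative (a set of at most 8 edges has more edges than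
fans). The count of monochromatic triangles of pairs (Goodman) needs the opposite.
-/

namespace Pool.Agent.Results.MP_c82047_co.TwoColourExact

/-- Let `3 ≤ k ≤ 9` and let `H` be a linear 3-graph on `n ≥ 23040` vertices with at least
`(1 - 1/516) n²/6` edges (for instance a Steiner triple system on `n` points).
For every 2-colouring `H = C ∪ (H \ C)` of its edges there are exactly `k` edges of one
colour which span at most `k + 3` vertices. -/
theorem result : ∀ k : ℕ, 3 ≤ k → k ≤ 9 →
    ∀ (V : Type) [Fintype V] [DecidableEq V] (H : Finset (Finset V)),
      (∀ L ∈ H, L.card = 3) →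
      (∀ L ∈ H, ∀ M ∈ H, L ≠ M → (L ∩ M).card ≤ 1) →
      23040 ≤ Fintype.card V →
      516 * ((Fintype.card V : ℤ) ^ 2 - 6 * H.card) ≤ (Fintype.card V : ℤ) ^ 2 →
      ∀ C : Finset (Finset V), C ⊆ H →
        ∃ S : Finset (Finset V), (S ⊆ C ∨ S ⊆ H \ C) ∧ S.card = k ∧
          (S.biUnion id).card ≤ k + 3 := by
  intro k hk3 hk9 V _ _ H three lin hn hden C hC
  exact Pool.Agent.Helper40W.BX.exact hk3 hk9 three lin hn hden hC

end Pool.Agent.Results.MP_c82047_co.TwoColourExact
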